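import Mathlib

/-!
The compact symplectic group as complex `2n × 2n` matrices; products of involutions.
-/

set_option linter.unusedSectionVars false
set_option linter.unusedVariables false

open Matrix

namespace Pool.Agent.Helper12.Spn

variable {ι κ : Type*} [Fintype ι] [DecidableEq ι] [Fintype κ] [DecidableEq κ]

/-- The matrix `J`. -/
def JJ (ι : Type*) [DecidableEq ι] : Matrix (ι ⊕ ι) (ι ⊕ ι) ℂ := fromBlocks 0 1 (-1) 0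

/-- Membership in the compact symplectic group. -/
def InSp (A : Matrix (ι ⊕ ι) (ι ⊕ ι) ℂ) : Prop := A * Aᴴ = 1 ∧ Aᵀ * JJ ι * A = JJ ι

theorem InSp.star_mul {A : Matrix (ι ⊕ ι) (ι ⊕ ι) ℂ} (h : InSp A) : Aᴴ * A = 1 :=
  mul_eq_one_comm.mp h.1

theorem InSp.one : InSp (1 : Matrix (ι ⊕ ι) (ι ⊕ ι) ℂ) := by
  constructor <;> simp

theorem InSp.mul {A B : Matrix (ι ⊕ ι) (ι ⊕ ι) ℂ} (hA : InSp A) (hB : InSp B) :
    InSp (A * B) := by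
  constructor
  · rw [conjTranspose_mul, Matrix.mul_assoc, ← Matrix.mul_assoc B, hB.1, Matrix.one_mul, hA.1]
  · rw [transpose_mul]
    calc Bᵀ * Aᵀ * JJ ι * (A * B) = Bᵀ * (Aᵀ * JJ ι * A) * B := by noncomm_ring
      _ = JJ ι := by rw [hA.2, hB.2]

theorem InSp.conjTranspose {A : Matrix (ι ⊕ ι) (ι ⊕ ι) ℂ} (hA : InSp A) : InSp Aᴴ := by
  constructor
  · rw [conjTranspose_conjTranspose]
    exact hA.star_mul
  · have h1 : Aᴴᵀ * Aᵀ = 1 := by rw [← transpose_mul, hA.1, transpose_one]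
    calc Aᴴᵀ * JJ ι * Aᴴ = Aᴴᵀ * (Aᵀ * JJ ι * A) * Aᴴ := by rw [hA.2]
      _ = (Aᴴᵀ * Aᵀ) * JJ ι * (A * Aᴴ) := by noncomm_ring
      _ = JJ ι := by rw [h1, hA.1, Matrix.one_mul, Matrix.mul_one]

/-- Involutions of the compact symplectic group. -/
def Inv (A : Matrix (ι ⊕ ι) (ι ⊕ ι) ℂ) : Prop := InSp A ∧ A * A = 1

theorem Inv.one : Inv (1 : Matrix (ι ⊕ ι) (ι ⊕ ι) ℂ) := ⟨InSp.one, by simp⟩

/-- Products of `k` involutions. -/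
def PI : ℕ → Matrix (ι ⊕ ι) (ι ⊕ ι) ℂ → Prop
  | 0, A => A = 1
  | k + 1, A => ∃ B C, Inv B ∧ PI k C ∧ A = B * C

theorem PI.one (k : ℕ) : PI k (1 : Matrix (ι ⊕ ι) (ι ⊕ ι) ℂ) := by
  induction k with
  | zero => rfl
  | succ k ih => exact ⟨1, 1, Inv.one, ih, by simp⟩

theorem PI.of_inv {A : Matrix (ι ⊕ ι) (ι ⊕ ι) ℂ} (h : Inv A) : PI 1 A :=
  ⟨A, 1, h, rfl, by simp⟩

theorem PI.mul {k l : ℕ} {A B : Matrix (ι ⊕ ι) (ι ⊕ ι) ℂ} (hA : PI k A) (hB : PI l B) :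
    PI (k + l) (A * B) := by
  induction k generalizing A with
  | zero =>
    have : A = 1 := hA
    rw [this, Matrix.one_mul, Nat.zero_add]
    exact hB
  | succ k ih =>
    obtain ⟨C, D, hC, hD, rfl⟩ := hA
    rw [Nat.succ_add, Matrix.mul_assoc]
    exact ⟨C, D * B, hC, ih hD, rfl⟩

theorem PI.mono {k l : ℕ} (hkl : k ≤ l) {A : Matrix (ι ⊕ ι) (ι ⊕ ι) ℂ} (hA : PI k A) :
    PI l A := by
  obtain ⟨m, rfl⟩ := Nat.exists_eq_add_of_le hkl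
  have := hA.mul (PI.one m)
  rwa [Matrix.mul_one] at this

theorem Inv.conj {A g : Matrix (ι ⊕ ι) (ι ⊕ ι) ℂ} (hA : Inv A) (hg : InSp g) :
    Inv (g * A * gᴴ) := by
  refine ⟨(hg.mul hA.1).mul hg.conjTranspose, ?_⟩
  calc g * A * gᴴ * (g * A * gᴴ) = g * A * (gᴴ * g) * A * gᴴ := by noncomm_ring
    _ = g * (A * A) * gᴴ := by rw [hg.star_mul]; noncomm_ring
    _ = 1 := by rw [hA.2, Matrix.mul_one, hg.1]

theorem PI.conj {k : ℕ} {A g : Matrix (ι ⊕ ι) (ι ⊕ ι) ℂ} (hA : PI k A) (hg : InSp g) :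
    PI k (g * A * gᴴ) := by
  induction k generalizing A with
  | zero =>
    have : A = 1 := hA
    rw [this, Matrix.mul_one, hg.1]
    rfl
  | succ k ih =>
    obtain ⟨C, D, hC, hD, rfl⟩ := hA
    refine ⟨g * C * gᴴ, g * D * gᴴ, hC.conj hg, ih hD, ?_⟩
    calc g * (C * D) * gᴴ = g * C * 1 * D * gᴴ := by noncomm_ring
      _ = g * C * (gᴴ * g) * D * gᴴ := by rw [hg.star_mul]
      _ = g * C * gᴴ * (g * D * gᴴ) := by noncomm_ring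

section Blocks

/-- The equivalence of index types used for orthogonal sums. -/
def shuffle (ι κ : Type*) : (ι ⊕ κ) ⊕ (ι ⊕ κ) ≃ (ι ⊕ ι) ⊕ (κ ⊕ κ) := Equiv.sumSumSumComm ι κ ι κ

/-- Orthogonal sum. -/
def osum (A : Matrix (ι ⊕ ι) (ι ⊕ ι) ℂ) (B : Matrix (κ ⊕ κ) (κ ⊕ κ) ℂ) :
    Matrix ((ι ⊕ κ) ⊕ (ι ⊕ κ)) ((ι ⊕ κ) ⊕ (ι ⊕ κ)) ℂ :=
  (fromBlocks A 0 0 B).submatrix (shuffle ι κ) (shuffle ι κ)

theorem osum_mul (A A' : Matrix (ι ⊕ ι) (ι ⊕ ι) ℂ) (B B' : Matrix (κ ⊕ κ) (κ ⊕ κ) ℂ) :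
    osum A B * osum A' B' = osum (A * A') (B * B') := by
  unfold osum
  rw [Matrix.submatrix_mul_equiv, fromBlocks_multiply]
  simp

theorem osum_one : osum (1 : Matrix (ι ⊕ ι) (ι ⊕ ι) ℂ) (1 : Matrix (κ ⊕ κ) (κ ⊕ κ) ℂ) = 1 := by
  unfold osum
  rw [fromBlocks_one, Matrix.submatrix_one_equiv]

theorem osum_conjTranspose (A : Matrix (ι ⊕ ι) (ι ⊕ ι) ℂ) (B : Matrix (κ ⊕ κ) (κ ⊕ κ) ℂ) :
    (osum A B)ᴴ = osum Aᴴ Bᴴ := by
  unfold osum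
  rw [Matrix.conjTranspose_submatrix, fromBlocks_conjTranspose]
  simp

theorem osum_transpose (A : Matrix (ι ⊕ ι) (ι ⊕ ι) ℂ) (B : Matrix (κ ⊕ κ) (κ ⊕ κ) ℂ) :
    (osum A B)ᵀ = osum Aᵀ Bᵀ := by
  unfold osum
  rw [Matrix.transpose_submatrix, fromBlocks_transpose]
  simp

theorem osum_JJ : osum (JJ ι) (JJ κ) = JJ (ι ⊕ κ) := by
  unfold osum JJ
  ext i j
  rcases i with (i | i) | (i | i) <;> rcases j with (j | j) | (j | j) <;>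
    simp [shuffle, Matrix.one_apply]

theorem InSp.osum {A : Matrix (ι ⊕ ι) (ι ⊕ ι) ℂ} {B : Matrix (κ ⊕ κ) (κ ⊕ κ) ℂ}
    (hA : InSp A) (hB : InSp B) : InSp (osum A B) := by
  constructor
  · rw [osum_conjTranspose, osum_mul, hA.1, hB.1, osum_one]
  · rw [osum_transpose, ← osum_JJ, osum_mul, osum_mul, hA.2, hB.2]

theorem Inv.osum {A : Matrix (ι ⊕ ι) (ι ⊕ ι) ℂ} {B : Matrix (κ ⊕ κ) (κ ⊕ κ) ℂ}
    (hA : Inv A) (hB : Inv B) : Inv (osum A B) :=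
  ⟨hA.1.osum hB.1, by rw [osum_mul, hA.2, hB.2, osum_one]⟩

theorem PI.osum {k : ℕ} {A : Matrix (ι ⊕ ι) (ι ⊕ ι) ℂ} {B : Matrix (κ ⊕ κ) (κ ⊕ κ) ℂ}
    (hA : PI k A) (hB : PI k B) : PI k (osum A B) := by
  induction k generalizing A B with
  | zero =>
    have h1 : A = 1 := hA
    have h2 : B = 1 := hB
    rw [h1, h2, osum_one]
    rfl
  | succ k ih =>
    obtain ⟨C, D, hC, hD, rfl⟩ := hA
    obtain ⟨C', D', hC', hD', rfl⟩ := hB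
    exact ⟨Spn.osum C C', Spn.osum D D', hC.osum hC', ih hD hD', (osum_mul _ _ _ _).symm⟩

/-- Reindexing. -/
def rei (e : ι ≃ κ) (A : Matrix (κ ⊕ κ) (κ ⊕ κ) ℂ) : Matrix (ι ⊕ ι) (ι ⊕ ι) ℂ :=
  A.submatrix (Equiv.sumCongr e e) (Equiv.sumCongr e e)

theorem rei_mul (e : ι ≃ κ) (A B : Matrix (κ ⊕ κ) (κ ⊕ κ) ℂ) :
    rei e (A * B) = rei e A * rei e B := by
  unfold rei
  rw [Matrix.submatrix_mul_equiv]

theorem rei_one (e : ι ≃ κ) : rei e (1 : Matrix (κ ⊕ κ) (κ ⊕ κ) ℂ) = 1 := by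
  unfold rei
  rw [Matrix.submatrix_one_equiv]

theorem rei_JJ (e : ι ≃ κ) : rei e (JJ κ) = JJ ι := by
  unfold rei JJ
  ext i j
  rcases i with i | i <;> rcases j with j | j <;> simp [Matrix.one_apply]

theorem InSp.rei (e : ι ≃ κ) {A : Matrix (κ ⊕ κ) (κ ⊕ κ) ℂ} (hA : InSp A) :
    InSp (rei e A) := by
  constructor
  · have : (Spn.rei e A)ᴴ = Spn.rei e Aᴴ := by
      unfold Spn.rei
      rw [Matrix.conjTranspose_submatrix]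
    rw [this, ← rei_mul, hA.1, rei_one]
  · have : (Spn.rei e A)ᵀ = Spn.rei e Aᵀ := by
      unfold Spn.rei
      rw [Matrix.transpose_submatrix]
    rw [this, ← rei_JJ e, ← rei_mul, ← rei_mul, hA.2]

theorem Inv.rei (e : ι ≃ κ) {A : Matrix (κ ⊕ κ) (κ ⊕ κ) ℂ} (hA : Inv A) :
    Inv (rei e A) := ⟨hA.1.rei e, by rw [← rei_mul, hA.2, rei_one]⟩

theorem PI.rei (e : ι ≃ κ) {k : ℕ} {A : Matrix (κ ⊕ κ) (κ ⊕ κ) ℂ} (hA : PI k A) :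
    PI k (rei e A) := by
  induction k generalizing A with
  | zero =>
    have h1 : A = 1 := hA
    rw [h1, rei_one]
    rfl
  | succ k ih =>
    obtain ⟨C, D, hC, hD, rfl⟩ := hA
    exact ⟨Spn.rei e C, Spn.rei e D, hC.rei e, ih hD, rei_mul _ _ _⟩

end Blocks

end Pool.Agent.Helper12.Spn
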