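import Mathlib
import Pool.Agent.Helper12.Sp.Basic

/-!
Diagonal elements of the compact symplectic group, the embedded unitary group, and flips.
-/

set_option linter.unusedSectionVars false
set_option linter.unusedVariables false

open Matrix ComplexConjugate

namespace Pool.Agent.Helper12.Spn

variable {ι κ : Type*} [Fintype ι] [DecidableEq ι] [Fintype κ] [DecidableEq κ]

/-- The element attached to a complex `n × n` matrix. -/
def emb (u : Matrix ι ι ℂ) : Matrix (ι ⊕ ι) (ι ⊕ ι) ℂ := fromBlocks u 0 0 (u.map conj)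

theorem emb_mul (u v : Matrix ι ι ℂ) : emb (u * v) = emb u * emb v := by
  unfold emb
  rw [fromBlocks_multiply, Matrix.map_mul]
  simp

theorem emb_one : emb (1 : Matrix ι ι ℂ) = 1 := by
  unfold emb
  rw [Matrix.map_one _ (map_zero _) (map_one _), fromBlocks_one]

theorem emb_conjTranspose (u : Matrix ι ι ℂ) : (emb u)ᴴ = emb uᴴ := by
  unfold emb
  rw [fromBlocks_conjTranspose]
  congr 1
  · simp
  · simp

theorem InSp.emb {u : Matrix ι ι ℂ} (hu : u * uᴴ = 1) : InSp (emb u) := by
  have hu' : uᴴ * u = 1 := mul_eq_one_comm.mp hu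
  constructor
  · rw [emb_conjTranspose, ← emb_mul, hu, emb_one]
  · have h1 : uᵀ * u.map conj = 1 := by
      have h2 := congrArg (fun M : Matrix ι ι ℂ => M.map conj) hu'
      simp only [Matrix.map_mul] at h2
      have h3 : uᴴ.map conj = uᵀ := by
        ext i j
        simp
      rw [h3, Matrix.map_one _ (map_zero _) (map_one _)] at h2
      exact h2
    have h4 : (u.map conj)ᵀ = uᴴ := by
      ext i j
      simp
    unfold Spn.emb JJ
    rw [fromBlocks_transpose, fromBlocks_multiply, fromBlocks_multiply, h4]
    simp [h1, hu']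

theorem Inv.emb {u : Matrix ι ι ℂ} (hu : u * uᴴ = 1) (h2 : u * u = 1) : Inv (emb u) :=
  ⟨InSp.emb hu, by rw [← emb_mul, h2, emb_one]⟩

/-- Diagonal elements. -/
def DD (a : ι → ℂ) : Matrix (ι ⊕ ι) (ι ⊕ ι) ℂ := emb (Matrix.diagonal a)

theorem DD_mul (a b : ι → ℂ) : DD a * DD b = DD (fun i => a i * b i) := by
  unfold DD
  rw [← emb_mul, Matrix.diagonal_mul_diagonal]

theorem DD_one : DD (fun _ : ι => (1 : ℂ)) = 1 := by
  unfold DD
  rw [Matrix.diagonal_one, emb_one]

/-- Unimodular families. -/
def Uni (a : ι → ℂ) : Prop := ∀ i, a i * conj (a i) = 1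

theorem InSp.DD {a : ι → ℂ} (ha : Uni a) : InSp (DD a) := by
  apply InSp.emb
  rw [Matrix.diagonal_conjTranspose, Matrix.diagonal_mul_diagonal, ← Matrix.diagonal_one]
  congr 1
  funext i
  exact ha i

theorem Inv.DD {a : ι → ℂ} (ha : ∀ i, a i = 1 ∨ a i = -1) : Inv (DD a) := by
  constructor
  · apply InSp.DD
    intro i
    rcases ha i with h | h <;> simp [h]
  · rw [DD_mul, ← DD_one]
    congr 1
    funext i
    rcases ha i with h | h <;> simp [h]

theorem rei_DD (e : ι ≃ κ) (a : κ → ℂ) : rei e (DD a) = DD (fun i => a (e i)) := by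
  unfold rei DD emb
  ext i j
  rcases i with i | i <;> rcases j with j | j <;> simp [Matrix.diagonal_apply]

theorem osum_DD (a : ι → ℂ) (b : κ → ℂ) : osum (DD a) (DD b) = DD (Sum.elim a b) := by
  unfold osum DD emb
  ext i j
  rcases i with (i | i) | (i | i) <;> rcases j with (j | j) | (j | j) <;>
    simp [shuffle, Matrix.diagonal_apply]

/-- The flip attached to a set of indices. -/
def flip (s : ι → Bool) : Matrix (ι ⊕ ι) (ι ⊕ ι) ℂ :=
  fromBlocks (Matrix.diagonal fun i => if s i then 0 else 1)
    (Matrix.diagonal fun i => if s i then 1 else 0)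
    (Matrix.diagonal fun i => if s i then -1 else 0)
    (Matrix.diagonal fun i => if s i then 0 else 1)

theorem InSp.flip (s : ι → Bool) : InSp (flip s) := by
  constructor
  · unfold Spn.flip
    rw [fromBlocks_conjTranspose, fromBlocks_multiply, ← fromBlocks_one]
    simp only [Matrix.diagonal_conjTranspose, Matrix.diagonal_mul_diagonal,
      Matrix.diagonal_add, ← Matrix.diagonal_one, ← Matrix.diagonal_zero]
    congr 2 <;> funext i <;> cases h : s i <;> simp [h]
  · unfold Spn.flip JJ
    rw [fromBlocks_transpose, fromBlocks_multiply, fromBlocks_multiply]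
    simp only [Matrix.diagonal_transpose, Matrix.mul_zero, Matrix.mul_one, zero_add, add_zero,
      Matrix.mul_neg, Matrix.neg_mul, Matrix.diagonal_mul_diagonal,
      Matrix.diagonal_add]
    have hneg : ∀ d : ι → ℂ, -Matrix.diagonal d = Matrix.diagonal (fun i => -d i) := by
      intro d
      rw [Matrix.diagonal_neg]
    simp only [hneg, Matrix.diagonal_mul_diagonal, Matrix.diagonal_add, ← Matrix.diagonal_one,
      ← Matrix.diagonal_zero]
    congr 2 <;> funext i <;> cases h : s i <;> simp [h]

theorem flip_conj (s : ι → Bool) (a : ι → ℂ) :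
    flip s * DD a * (flip s)ᴴ = DD (fun i => if s i then conj (a i) else a i) := by
  unfold flip DD emb
  rw [Matrix.diagonal_map (map_zero _), Matrix.diagonal_map (map_zero _),
    fromBlocks_conjTranspose, fromBlocks_multiply, fromBlocks_multiply]
  simp only [Matrix.diagonal_conjTranspose, Matrix.mul_zero, zero_add, add_zero,
      Matrix.diagonal_mul_diagonal, Matrix.diagonal_add, ← Matrix.diagonal_zero]
  congr 2 <;> funext i <;> cases h : s i <;> simp [h]

/-- Diagonal elements may be flipped. -/
theorem PI.flip {k : ℕ} {a : ι → ℂ} (s : ι → Bool)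
    (h : PI k (DD (fun i => if s i then conj (a i) else a i))) : PI k (DD a) := by
  have h1 := h.conj (InSp.flip s)
  rw [flip_conj] at h1
  have h2 : (fun i => if s i then conj ((fun i => if s i then conj (a i) else a i) i)
      else (fun i => if s i then conj (a i) else a i) i) = a := by
    funext i
    cases h : s i <;> simp [h]
  rwa [h2] at h1

end Pool.Agent.Helper12.Spn
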