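import Mathlib
import Pool.Agent.Helper12.Sp.Diag

/-!
Ranks two and three.
-/

set_option linter.unusedSectionVars false
set_option linter.unusedVariables false
set_option linter.unusedSimpArgs false

open Matrix ComplexConjugate

namespace Pool.Agent.Helper12.Spn

/-- Diagonalisation of a unitary `2 × 2` matrix. -/
theorem diag2 (W : Matrix (Fin 2) (Fin 2) ℂ) (hW : W * Wᴴ = 1) :
    ∃ (v : Matrix (Fin 2) (Fin 2) ℂ) (b1 b2 : ℂ), v * vᴴ = 1 ∧ b1 * conj b1 = 1 ∧
      b2 * conj b2 = 1 ∧ W = v * Matrix.diagonal ![b1, b2] * vᴴ := by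
  obtain ⟨μ, hμ⟩ := Module.End.exists_eigenvalue (Matrix.toLin' W)
  obtain ⟨x, hx⟩ := hμ.exists_hasEigenvector
  have hx0 : x ≠ 0 := hx.2
  have hWx : W *ᵥ x = μ • x := by
    have := hx.apply_eq_smul
    rwa [Matrix.toLin'_apply] at this
  -- normalise
  obtain ⟨y, hy, hWy⟩ : ∃ y : Fin 2 → ℂ, y 0 * conj (y 0) + y 1 * conj (y 1) = 1 ∧
      W *ᵥ y = μ • y := by
    have hN : 0 < ‖x 0‖ ^ 2 + ‖x 1‖ ^ 2 := by
      by_contra hcon
      have h1 : ‖x 0‖ = 0 := by nlinarith [norm_nonneg (x 0), norm_nonneg (x 1)]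
      have h2 : ‖x 1‖ = 0 := by nlinarith [norm_nonneg (x 0), norm_nonneg (x 1)]
      apply hx0
      funext i
      fin_cases i
      · simpa using h1
      · simpa using h2
    set N : ℝ := Real.sqrt (‖x 0‖ ^ 2 + ‖x 1‖ ^ 2) with hNdef
    have hNsq : N ^ 2 = ‖x 0‖ ^ 2 + ‖x 1‖ ^ 2 := Real.sq_sqrt hN.le
    have hN0 : N ≠ 0 := by
      intro h
      rw [h] at hNsq
      norm_num at hNsq
      linarith
    refine ⟨fun i => (N : ℂ)⁻¹ * x i, ?_, ?_⟩
    · have e0 : x 0 * conj (x 0) = ((‖x 0‖ ^ 2 : ℝ) : ℂ) := by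
        rw [Complex.mul_conj, Complex.normSq_eq_norm_sq]
      have e1 : x 1 * conj (x 1) = ((‖x 1‖ ^ 2 : ℝ) : ℂ) := by
        rw [Complex.mul_conj, Complex.normSq_eq_norm_sq]
      have hNc : (N : ℂ) ≠ 0 := by exact_mod_cast hN0
      have hNsqc : (N : ℂ) ^ 2 = ((‖x 0‖ ^ 2 : ℝ) : ℂ) + ((‖x 1‖ ^ 2 : ℝ) : ℂ) := by
        exact_mod_cast hNsq
      simp only [map_mul, map_inv₀, Complex.conj_ofReal]
      field_simp
      linear_combination e0 + e1 - hNsqc
    · have : (fun i => (N : ℂ)⁻¹ * x i) = (N : ℂ)⁻¹ • x := rfl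
      rw [this, Matrix.mulVec_smul, hWx, smul_comm]
  have h0 : W 0 0 * y 0 + W 0 1 * y 1 = μ * y 0 := by
    have := congrFun hWy 0
    simpa [Matrix.mulVec, dotProduct, Fin.sum_univ_two] using this
  have h1 : W 1 0 * y 0 + W 1 1 * y 1 = μ * y 1 := by
    have := congrFun hWy 1
    simpa [Matrix.mulVec, dotProduct, Fin.sum_univ_two] using this
  set v : Matrix (Fin 2) (Fin 2) ℂ := !![y 0, -conj (y 1); y 1, conj (y 0)] with hv
  have hvv : v * vᴴ = 1 := by
    ext i j
    fin_cases i <;> fin_cases j <;>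
      simp [hv, Matrix.mul_apply, Fin.sum_univ_two, Matrix.conjTranspose_apply]
    · linear_combination hy
    · ring
    · ring
    · linear_combination hy
  have hvv' : vᴴ * v = 1 := mul_eq_one_comm.mp hvv
  set M := vᴴ * W * v with hM
  have hMM : M * Mᴴ = 1 := by
    rw [hM, conjTranspose_mul, conjTranspose_mul, conjTranspose_conjTranspose]
    calc vᴴ * W * v * (vᴴ * (Wᴴ * v)) = vᴴ * W * (v * vᴴ) * Wᴴ * v := by noncomm_ring
      _ = vᴴ * (W * Wᴴ) * v := by rw [hvv]; noncomm_ring
      _ = 1 := by rw [hW, Matrix.mul_one, hvv']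
  have hM00 : M 0 0 = μ := by
    simp [hM, hv, Matrix.mul_apply, Fin.sum_univ_two, Matrix.conjTranspose_apply]
    linear_combination conj (y 0) * h0 + conj (y 1) * h1 + μ * hy
  have hM10 : M 1 0 = 0 := by
    simp [hM, hv, Matrix.mul_apply, Fin.sum_univ_two, Matrix.conjTranspose_apply]
    linear_combination (-y 1) * h0 + y 0 * h1
  have hd : M 1 1 * conj (M 1 1) = 1 := by
    have := congrFun (congrFun hMM 1) 1
    rw [Matrix.mul_apply, Fin.sum_univ_two, hM10] at this
    simpa [Matrix.conjTranspose_apply] using this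
  have hM01 : M 0 1 = 0 := by
    have := congrFun (congrFun hMM 0) 1
    rw [Matrix.mul_apply, Fin.sum_univ_two] at this
    simp only [Matrix.conjTranspose_apply, hM10] at this
    simp at this
    rcases this with h | h
    · exact h
    · rw [h] at hd
      simp at hd
  have hμ1 : μ * conj μ = 1 := by
    have := congrFun (congrFun hMM 0) 0
    rw [Matrix.mul_apply, Fin.sum_univ_two, hM01, hM00] at this
    simpa [Matrix.conjTranspose_apply, hM00] using this
  refine ⟨v, μ, M 1 1, hvv, hμ1, hd, ?_⟩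
  have hMd : M = Matrix.diagonal ![μ, M 1 1] := by
    ext i j
    fin_cases i <;> fin_cases j
    · simpa using hM00
    · simpa using hM01
    · simpa using hM10
    · simp
  rw [← hMd, hM]
  calc W = (v * vᴴ) * W * (v * vᴴ) := by rw [hvv]; simp
    _ = v * (vᴴ * W * v) * vᴴ := by noncomm_ring

/-- The swap matrix. -/
def sw : Matrix (Fin 2) (Fin 2) ℂ := !![0, 1; 1, 0]

theorem sw_star : sw * swᴴ = 1 := by
  ext i j
  fin_cases i <;> fin_cases j <;> simp [sw, Matrix.mul_apply, Fin.sum_univ_two]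

theorem sw_sq : sw * sw = 1 := by
  ext i j
  fin_cases i <;> fin_cases j <;> simp [sw, Matrix.mul_apply, Fin.sum_univ_two]

/-- `diag(c, conj c)` is a product of two involutions. -/
theorem two_inv {c : ℂ} (hc : c * conj c = 1) : PI 2 (DD ![c, conj c]) := by
  have h1 : (!![0, c; conj c, 0] : Matrix (Fin 2) (Fin 2) ℂ) * (!![0, c; conj c, 0])ᴴ = 1 := by
    ext i j
    fin_cases i <;> fin_cases j <;>
      simp [Matrix.mul_apply, Fin.sum_univ_two, Matrix.conjTranspose_apply, hc]
    rw [mul_comm]; exact hc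
  have h2 : (!![0, c; conj c, 0] : Matrix (Fin 2) (Fin 2) ℂ) * (!![0, c; conj c, 0]) = 1 := by
    ext i j
    fin_cases i <;> fin_cases j <;>
      simp [Matrix.mul_apply, Fin.sum_univ_two, hc]
    rw [mul_comm]; exact hc
  have h3 : DD ![c, conj c] = emb (!![0, c; conj c, 0]) * emb sw := by
    rw [← emb_mul, DD]
    congr 1
    ext i j
    fin_cases i <;> fin_cases j <;> simp [sw, Matrix.mul_apply, Fin.sum_univ_two]
  rw [h3]
  exact (PI.of_inv (Inv.emb h1 h2)).mul (PI.of_inv (Inv.emb sw_star sw_sq))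

/-- Rank two: four involutions. -/
theorem case2 {a1 a2 : ℂ} (h1 : a1 * conj a1 = 1) (h2 : a2 * conj a2 = 1) :
    PI 4 (DD ![a1, a2]) := by
  set W : Matrix (Fin 2) (Fin 2) ℂ := !![0, a1; a2, 0] with hW
  have hWW : W * Wᴴ = 1 := by
    ext i j
    fin_cases i <;> fin_cases j <;>
      simp [hW, Matrix.mul_apply, Fin.sum_univ_two, Matrix.conjTranspose_apply, h1, h2]
  obtain ⟨v, b1, b2, hv, hb1, hb2, hWv⟩ := diag2 W hWW
  have htr : b1 + b2 = 0 := by
    have e1 : W.trace = (Matrix.diagonal ![b1, b2]).trace := by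
      rw [hWv, Matrix.trace_mul_comm, ← Matrix.mul_assoc, mul_eq_one_comm.mp hv, Matrix.one_mul]
    rw [Matrix.trace_fin_two, Matrix.trace_fin_two] at e1
    simp [hW] at e1
    exact e1.symm
  have hb : b2 = -b1 := by linear_combination htr
  have e1 : DD ![a1, a2] = emb W * emb sw := by
    rw [← emb_mul, DD]
    congr 1
    ext i j
    fin_cases i <;> fin_cases j <;> simp [hW, sw, Matrix.mul_apply, Fin.sum_univ_two]
  have e2 : emb W = emb v * DD ![b1, b2] * (emb v)ᴴ := by
    rw [emb_conjTranspose, DD, ← emb_mul, ← emb_mul, ← hWv]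
  have e3 : PI 3 (DD ![b1, b2]) := by
    apply PI.flip ![false, true]
    have e4 : (fun i => if (![false, true] : Fin 2 → Bool) i then conj (![b1, b2] i)
        else (![b1, b2] : Fin 2 → ℂ) i) = fun i => (![b1, conj b1] : Fin 2 → ℂ) i * ![1, -1] i := by
      funext i
      fin_cases i <;> simp [hb]
    rw [e4, ← DD_mul]
    have e5 : Inv (DD ![(1 : ℂ), -1]) := by
      apply Inv.DD
      intro i
      fin_cases i <;> simp
    exact (two_inv hb1).mul (PI.of_inv e5)
  rw [e1, e2]
  exact (e3.conj (InSp.emb hv)).mul (PI.of_inv (Inv.emb sw_star sw_sq))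

theorem Inv.DD1 {δ : ℂ} (hδ : δ = 1 ∨ δ = -1) : Inv (Spn.DD ![δ]) := by
  apply Inv.DD
  intro i
  fin_cases i
  exact hδ

/-- `diag(1, c, conj c)` is a product of two involutions. -/
theorem two_inv' {c : ℂ} (hc : c * conj c = 1) :
    PI 2 (DD (Sum.elim ![1, c] ![conj c] : Fin 2 ⊕ Fin 1 → ℂ)) := by
  have h1 : PI 2 (DD ![conj c, conj (conj c)]) := two_inv (by simpa [mul_comm] using hc)
  have h2 : PI 2 (DD ![(1 : ℂ)]) := (PI.of_inv (Inv.DD1 (Or.inl rfl))).mono (by norm_num)
  have h3 := h1.osum h2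
  rw [osum_DD] at h3
  have h4 := h3.rei (Equiv.swap (Sum.inl 0 : Fin 2 ⊕ Fin 1) (Sum.inr 0))
  rw [rei_DD] at h4
  convert h4 using 2
  funext i
  rcases i with i | i
  · fin_cases i
    · simp
    · rw [Equiv.swap_apply_of_ne_of_ne]
      · simp
      · simp
      · simp
  · fin_cases i
    simp

/-- Rank three, determinant `±1`: four involutions. -/
theorem four {c1 c2 c3 δ : ℂ} (h1 : c1 * conj c1 = 1) (h2 : c2 * conj c2 = 1)
    (h3 : c3 * conj c3 = 1) (hδ : δ = 1 ∨ δ = -1) (h : c1 * c2 * c3 = δ) :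
    PI 4 (DD (Sum.elim ![c1, c2] ![c3] : Fin 2 ⊕ Fin 1 → ℂ)) := by
  have e1 : DD (Sum.elim ![c1, c2] ![c3] : Fin 2 ⊕ Fin 1 → ℂ)
      = DD (Sum.elim ![c1, conj c1] ![δ]) * DD (Sum.elim ![1, c1 * c2] ![conj (c1 * c2)]) := by
    rw [DD_mul]
    congr 1
    funext i
    rcases i with i | i
    · fin_cases i
      · simp
      · simp
        linear_combination (-c2) * h1
    · fin_cases i
      simp
      rw [← h]
      linear_combination (-c3 * c2 * conj c2) * h1 - c3 * h2
  rw [e1]
  have hd : c1 * c2 * conj (c1 * c2) = 1 := by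
    rw [map_mul]
    linear_combination (c2 * conj c2) * h1 + h2
  have h5 : PI 2 (DD (Sum.elim ![c1, conj c1] ![δ] : Fin 2 ⊕ Fin 1 → ℂ)) := by
    rw [← osum_DD]
    exact (two_inv h1).osum ((PI.of_inv (Inv.DD1 hδ)).mono (by norm_num))
  exact h5.mul (two_inv' hd)

theorem unimod_sq {a : ℂ} (h : a * conj a = 1) : a.re ^ 2 + a.im ^ 2 = 1 := by
  have := congrArg Complex.re h
  simp at this
  linarith [this, sq a.re, sq a.im]

theorem real_unimod {a : ℂ} (h : a.re ^ 2 = 1) (hi : a.im = 0) : a = 1 ∨ a = -1 := by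
  have h1 : (a.re - 1) * (a.re + 1) = 0 := by linarith [sq a.re]
  rcases mul_eq_zero.mp h1 with h2 | h2
  · left
    apply Complex.ext
    · simp; linarith
    · simpa using hi
  · right
    apply Complex.ext
    · simp; linarith
    · simpa using hi

theorem align {c a : ℂ} (hc : c * conj c = 1) (ha : a * conj a = 1) (h : |c.re| = |a.re|) :
    ∃ δ : ℂ, (δ = 1 ∨ δ = -1) ∧ (c * conj a = δ ∨ c * a = δ) := by
  have s1 := unimod_sq hc
  have s2 := unimod_sq ha
  have h1 : c.re ^ 2 = a.re ^ 2 := by rw [← sq_abs, h, sq_abs]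
  have h2 : c.im ^ 2 = a.im ^ 2 := by linarith
  rcases sq_eq_sq_iff_eq_or_eq_neg.mp h1 with hr | hr <;>
    rcases sq_eq_sq_iff_eq_or_eq_neg.mp h2 with hi | hi
  · have : c = a := Complex.ext hr hi
    exact ⟨1, Or.inl rfl, Or.inl (by rw [this, ha])⟩
  · have : c = conj a := Complex.ext (by simpa using hr) (by simpa using hi)
    exact ⟨1, Or.inl rfl, Or.inr (by rw [this, mul_comm, ha])⟩
  · have : c = -conj a := Complex.ext (by simpa using hr) (by simpa using hi)
    exact ⟨-1, Or.inr rfl, Or.inr (by rw [this, neg_mul, mul_comm, ha])⟩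
  · have : c = -a := Complex.ext (by simpa using hr) (by simpa using hi)
    exact ⟨-1, Or.inr rfl, Or.inl (by rw [this, neg_mul, ha])⟩

/-- Rank three: five involutions, for suitably ordered and flipped diagonal elements. -/
theorem case3_aux {a1 a2 a3 : ℂ} (h1 : a1 * conj a1 = 1) (h2 : a2 * conj a2 = 1)
    (h3 : a3 * conj a3 = 1) (h13 : |a1.re| ≤ |a3.re|) (h23 : |a2.re| ≤ |a3.re|)
    (hi1 : 0 ≤ a1.im) (hi2 : a2.im ≤ 0) :
    PI 5 (DD (Sum.elim ![a1, a2] ![a3] : Fin 2 ⊕ Fin 1 → ℂ)) := by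
  have s1 := unimod_sq h1
  have s2 := unimod_sq h2
  have s3 := unimod_sq h3
  set q := |a3.re| with hq
  set p := a1.re * a2.re + a1.im * a2.im with hp
  have hq0 : 0 ≤ q := abs_nonneg _
  have hq1 : q ≤ 1 := by
    rw [hq]; exact abs_le_one_iff_mul_self_le_one.mpr (by nlinarith [sq_nonneg a3.im])
  have h21 : |a2.re| ≤ 1 := h23.trans hq1
  have hpq : p ≤ q := by
    have e1 : a1.re * a2.re ≤ |a1.re| * |a2.re| := by
      rw [← abs_mul]; exact le_abs_self _
    have e2 : |a1.re| * |a2.re| ≤ q * 1 :=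
      mul_le_mul h13 h21 (abs_nonneg _) hq0
    have e3 : a1.im * a2.im ≤ 0 := mul_nonpos_of_nonneg_of_nonpos hi1 hi2
    rw [hp]; linarith
  rcases eq_or_lt_of_le (hpq.trans hq1) with hp1 | hp1
  · -- all eigenvalues are real
    have hq1' : q = 1 := le_antisymm hq1 (hp1 ▸ hpq)
    have e3 : a1.im * a2.im ≤ 0 := mul_nonpos_of_nonneg_of_nonpos hi1 hi2
    have e4 : 1 ≤ a1.re * a2.re := by
      have : a1.re * a2.re + a1.im * a2.im = 1 := hp1
      linarith
    have e5 : a1.re ^ 2 ≤ 1 := by nlinarith [sq_nonneg a1.im]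
    have e6 : a2.re ^ 2 ≤ 1 := by nlinarith [sq_nonneg a2.im]
    have e7 : 1 ≤ a1.re ^ 2 * a2.re ^ 2 := by
      rw [← mul_pow]
      nlinarith
    have e8 : a1.re ^ 2 = 1 := by nlinarith [sq_nonneg a1.re, sq_nonneg a2.re]
    have e9 : a2.re ^ 2 = 1 := by nlinarith [sq_nonneg a1.re, sq_nonneg a2.re]
    have e10 : a3.re ^ 2 = 1 := by rw [← sq_abs, ← hq, hq1']; norm_num
    have f1 := real_unimod e8 (by nlinarith)
    have f2 := real_unimod e9 (by nlinarith)
    have f3 := real_unimod e10 (by nlinarith)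
    apply PI.mono (show 1 ≤ 5 by norm_num)
    apply PI.of_inv
    apply Inv.DD
    intro i
    rcases i with i | i
    · fin_cases i
      · exact f1
      · exact f2
    · fin_cases i
      exact f3
  · -- the generic case
    have h1p : 0 < 1 - p := by linarith
    set r : ℝ := Real.sqrt ((1 - q) / (1 - p)) with hr
    have hr2 : r ^ 2 = (1 - q) / (1 - p) := Real.sq_sqrt (div_nonneg (by linarith) h1p.le)
    have hr3 : r ^ 2 * (1 - p) = 1 - q := by rw [hr2]; field_simp
    have hr4 : r ^ 2 ≤ 1 := by rw [hr2, div_le_one h1p]; linarith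
    set s : ℝ := Real.sqrt (1 - r ^ 2) with hs
    have hs2 : s ^ 2 = 1 - r ^ 2 := Real.sq_sqrt (by linarith)
    have hrs : (r : ℂ) * r + s * s = 1 := by
      have : r * r + s * s = 1 := by nlinarith
      exact_mod_cast this
    set t : Matrix (Fin 2) (Fin 2) ℂ := !![(r : ℂ), s; s, -r] with ht
    have htt : t * t = 1 := by
      ext i j
      fin_cases i <;> fin_cases j <;> simp [ht, Matrix.mul_apply, Fin.sum_univ_two]
      · exact hrs
      · ring
      · ring
      · linear_combination hrs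
    have hth : tᴴ = t := by
      ext i j
      fin_cases i <;> fin_cases j <;> simp [ht, Matrix.conjTranspose_apply]
    set W : Matrix (Fin 2) (Fin 2) ℂ := Matrix.diagonal ![a1, a2] * t with hW
    have hdd : (Matrix.diagonal ![a1, a2] : Matrix (Fin 2) (Fin 2) ℂ)
        * (Matrix.diagonal ![a1, a2])ᴴ = 1 := by
      rw [Matrix.diagonal_conjTranspose, Matrix.diagonal_mul_diagonal, ← Matrix.diagonal_one]
      congr 1
      funext i
      fin_cases i
      · simpa using h1
      · simpa using h2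
    have hWW : W * Wᴴ = 1 := by
      rw [hW, conjTranspose_mul, hth]
      calc Matrix.diagonal ![a1, a2] * t * (t * (Matrix.diagonal ![a1, a2])ᴴ)
          = Matrix.diagonal ![a1, a2] * (t * t) * (Matrix.diagonal ![a1, a2])ᴴ := by
            noncomm_ring
        _ = 1 := by rw [htt, Matrix.mul_one, hdd]
    obtain ⟨v, b1, b2, hv, hb1, hb2, hWv⟩ := diag2 W hWW
    have htr : b1 + b2 = r * (a1 - a2) := by
      have e1 : W.trace = (Matrix.diagonal ![b1, b2]).trace := by
        rw [hWv, Matrix.trace_mul_comm, ← Matrix.mul_assoc, mul_eq_one_comm.mp hv, Matrix.one_mul]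
      rw [Matrix.trace_fin_two, Matrix.trace_fin_two] at e1
      simp [hW, ht, Matrix.mul_apply, Fin.sum_univ_two] at e1
      linear_combination -e1
    have sb1 := unimod_sq hb1
    have sb2 := unimod_sq hb2
    have tre : b1.re + b2.re = r * (a1.re - a2.re) := by
      have := congrArg Complex.re htr
      simpa using this
    have tim : b1.im + b2.im = r * (a1.im - a2.im) := by
      have := congrArg Complex.im htr
      simpa using this
    have hT : b1.re * b2.re + b1.im * b2.im = -q := by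
      have e1 : (b1.re + b2.re) ^ 2 + (b1.im + b2.im) ^ 2
          = r ^ 2 * ((a1.re - a2.re) ^ 2 + (a1.im - a2.im) ^ 2) := by
        rw [tre, tim]; ring
      have e2 : (a1.re - a2.re) ^ 2 + (a1.im - a2.im) ^ 2 = 2 * (1 - p) := by
        rw [hp]; linear_combination s1 + s2
      rw [e2] at e1
      have e3 : r ^ 2 * (2 * (1 - p)) = 2 * (1 - q) := by linear_combination 2 * hr3
      linear_combination (1 / 2) * e1 + (1 / 2) * e3 - (1 / 2) * sb1 - (1 / 2) * sb2
    have hc : (b1 * conj b2) * conj (b1 * conj b2) = 1 := by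
      rw [map_mul, Complex.conj_conj]
      linear_combination (b2 * conj b2) * hb1 + hb2
    have hcre : |(b1 * conj b2).re| = |a3.re| := by
      have : (b1 * conj b2).re = -q := by
        rw [← hT]; simp
      rw [this, abs_neg, abs_of_nonneg hq0]
    have hfour : PI 4 (DD (Sum.elim ![b1, b2] ![a3] : Fin 2 ⊕ Fin 1 → ℂ)) := by
      obtain ⟨δ, hδ, hδ'⟩ := align hc h3 hcre
      rcases hδ' with hδ' | hδ'
      · apply PI.flip (Sum.elim ![false, true] ![true])
        have := four (c1 := b1) (c2 := conj b2) (c3 := conj a3) hb1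
          (by rw [Complex.conj_conj, mul_comm]; exact hb2)
          (by rw [Complex.conj_conj, mul_comm]; exact h3) hδ hδ'
        convert this using 2
        funext i
        rcases i with i | i
        · fin_cases i <;> simp
        · fin_cases i; simp
      · apply PI.flip (Sum.elim ![false, true] ![false])
        have := four (c1 := b1) (c2 := conj b2) (c3 := a3) hb1
          (by rw [Complex.conj_conj, mul_comm]; exact hb2) h3 hδ hδ'
        convert this using 2
        funext i
        rcases i with i | i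
        · fin_cases i <;> simp
        · fin_cases i; simp
    have e1 : DD (Sum.elim ![a1, a2] ![a3] : Fin 2 ⊕ Fin 1 → ℂ)
        = osum (emb W) (DD ![a3]) * osum (emb t) 1 := by
      rw [← osum_DD, osum_mul, Matrix.mul_one, ← emb_mul, hW, Matrix.mul_assoc, htt,
        Matrix.mul_one]
      rfl
    have e2 : osum (emb W) (DD ![a3])
        = osum (emb v) 1 * DD (Sum.elim ![b1, b2] ![a3] : Fin 2 ⊕ Fin 1 → ℂ)
          * (osum (emb v) 1)ᴴ := by
      have e3 : emb W = emb v * DD ![b1, b2] * emb vᴴ := by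
        unfold DD
        rw [← emb_mul, ← emb_mul, ← hWv]
      rw [← osum_DD, osum_conjTranspose, osum_mul, osum_mul, conjTranspose_one, Matrix.mul_one,
        Matrix.one_mul, emb_conjTranspose, ← e3]
    rw [e1, e2]
    have htinv : Inv (emb t) := Inv.emb (by rw [hth, htt]) htt
    exact (hfour.conj ((InSp.emb hv).osum InSp.one)).mul (PI.of_inv (htinv.osum Inv.one))

/-- Rank three without the sign conditions. -/
theorem case3 {a1 a2 a3 : ℂ} (h1 : a1 * conj a1 = 1) (h2 : a2 * conj a2 = 1)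
    (h3 : a3 * conj a3 = 1) (h13 : |a1.re| ≤ |a3.re|) (h23 : |a2.re| ≤ |a3.re|) :
    PI 5 (DD (Sum.elim ![a1, a2] ![a3] : Fin 2 ⊕ Fin 1 → ℂ)) := by
  have hconj : ∀ a : ℂ, a * conj a = 1 → conj a * conj (conj a) = 1 := by
    intro a ha
    rw [Complex.conj_conj, mul_comm]; exact ha
  rcases le_total 0 a1.im with i1 | i1 <;> rcases le_total a2.im 0 with i2 | i2
  · exact case3_aux h1 h2 h3 h13 h23 i1 i2
  · apply PI.flip (Sum.elim ![false, true] ![false])
    have := case3_aux (a1 := a1) (a2 := conj a2) (a3 := a3) h1 (hconj _ h2) h3 h13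
      (by simpa using h23) i1 (by simpa using i2)
    convert this using 2
    funext i
    rcases i with i | i
    · fin_cases i <;> simp
    · fin_cases i; simp
  · apply PI.flip (Sum.elim ![true, false] ![false])
    have := case3_aux (a1 := conj a1) (a2 := a2) (a3 := a3) (hconj _ h1) h2 h3
      (by simpa using h13) h23 (by simpa using i1) i2
    convert this using 2
    funext i
    rcases i with i | i
    · fin_cases i <;> simp
    · fin_cases i; simp
  · apply PI.flip (Sum.elim ![true, true] ![false])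
    have := case3_aux (a1 := conj a1) (a2 := conj a2) (a3 := a3) (hconj _ h1) (hconj _ h2) h3
      (by simpa using h13) (by simpa using h23) (by simpa using i1) (by simpa using i2)
    convert this using 2
    funext i
    rcases i with i | i
    · fin_cases i <;> simp
    · fin_cases i; simp

/-- All diagonal elements over an index type are products of five involutions. -/
def All5 (ι : Type) [Fintype ι] [DecidableEq ι] : Prop := ∀ a : ι → ℂ, Uni a → PI 5 (DD a)

theorem All5.of_equiv {ι κ : Type} [Fintype ι] [DecidableEq ι] [Fintype κ] [DecidableEq κ]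
    (e : ι ≃ κ) (h : All5 κ) : All5 ι := by
  intro a ha
  have h1 := (h (fun j => a (e.symm j)) (fun j => ha _)).rei e
  rw [rei_DD] at h1
  simpa using h1

theorem All5.sum {ι κ : Type} [Fintype ι] [DecidableEq ι] [Fintype κ] [DecidableEq κ]
    (h : All5 ι) (h' : All5 κ) : All5 (ι ⊕ κ) := by
  intro a ha
  have h1 := (h (fun i => a (Sum.inl i)) (fun i => ha _)).osum
    (h' (fun i => a (Sum.inr i)) (fun i => ha _))
  rw [osum_DD] at h1
  convert h1 using 2
  funext i
  rcases i with i | i <;> rfl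

theorem all5_two : All5 (Fin 2) := by
  intro a ha
  have h1 := (case2 (ha 0) (ha 1)).mono (show 4 ≤ 5 by norm_num)
  convert h1 using 2
  funext i
  fin_cases i <;> rfl

theorem all5_three : All5 (Fin 3) := by
  intro a ha
  obtain ⟨i0, hi0⟩ := Finite.exists_max (fun i => |(a i).re|)
  let e0 : Fin 2 ⊕ Fin 1 ≃ Fin 3 := finSumFinEquiv
  let e : Fin 2 ⊕ Fin 1 ≃ Fin 3 := e0.trans (Equiv.swap (e0 (Sum.inr 0)) i0)
  have he : e (Sum.inr 0) = i0 := by simp [e]
  have h1 := case3 (ha (e (Sum.inl 0))) (ha (e (Sum.inl 1))) (ha (e (Sum.inr 0)))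
    (by rw [he]; exact hi0 _) (by rw [he]; exact hi0 _)
  have h2 := h1.rei e.symm
  rw [rei_DD] at h2
  convert h2 using 2
  funext i
  obtain ⟨j, rfl⟩ := e.surjective i
  rw [Equiv.symm_apply_apply]
  rcases j with j | j
  · fin_cases j <;> rfl
  · fin_cases j; rfl

theorem all5_fin (n : ℕ) (hn : 2 ≤ n) : All5 (Fin n) := by
  induction n using Nat.strong_induction_on with
  | _ n ih =>
    rcases Nat.lt_or_ge n 4 with h | h
    · interval_cases n
      · exact all5_two
      · exact all5_three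
    · obtain ⟨m, rfl⟩ : ∃ m, n = m + 2 := ⟨n - 2, by omega⟩
      exact All5.of_equiv finSumFinEquiv.symm (All5.sum (ih m (by omega) (by omega)) all5_two)

end Pool.Agent.Helper12.Spn
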