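import Mathlib
import Pool.Agent.Helper12.Sp.Diag

/-!
Every element of the compact symplectic group is conjugate to a diagonal one.
-/

set_option linter.unusedSectionVars false
set_option linter.unusedVariables false
set_option linter.unusedSimpArgs false

open Matrix ComplexConjugate

namespace Pool.Agent.Helper12.Spn

variable {ι : Type*} [Fintype ι] [DecidableEq ι]

/-- The antilinear structure map. -/
def jv (v : ι ⊕ ι → ℂ) : ι ⊕ ι → ℂ :=
  Sum.elim (fun i => -conj (v (Sum.inr i))) (fun i => conj (v (Sum.inl i)))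

theorem jv_smul (c : ℂ) (v : ι ⊕ ι → ℂ) : jv (c • v) = conj c • jv v := by
  funext i
  rcases i with i | i <;> simp [jv]

/-- The pairing of `jv u` with `w`. -/
theorem jv_dot (u w : ι ⊕ ι → ℂ) :
    star (jv u) ⬝ᵥ w = ∑ i, (u (Sum.inl i) * w (Sum.inr i) - u (Sum.inr i) * w (Sum.inl i)) := by
  rw [dotProduct, Fintype.sum_sum_type, ← Finset.sum_add_distrib]
  apply Finset.sum_congr rfl
  intro i _
  simp [jv]
  ring

theorem jv_dot_anti (u w : ι ⊕ ι → ℂ) : star (jv u) ⬝ᵥ w = -(star (jv w) ⬝ᵥ u) := by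
  rw [jv_dot, jv_dot, ← Finset.sum_neg_distrib]
  apply Finset.sum_congr rfl
  intro i _
  ring

theorem jv_dot_self (u : ι ⊕ ι → ℂ) : star (jv u) ⬝ᵥ u = 0 := by
  rw [jv_dot]
  apply Finset.sum_eq_zero
  intro i _
  ring

theorem dot_conj (u w : ι ⊕ ι → ℂ) : star u ⬝ᵥ w = conj (star w ⬝ᵥ u) := by
  rw [dotProduct, dotProduct, map_sum]
  apply Finset.sum_congr rfl
  intro i _
  simp [mul_comm]

theorem jv_dot_jv (u w : ι ⊕ ι → ℂ) : star (jv u) ⬝ᵥ jv w = star w ⬝ᵥ u := by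
  rw [jv_dot, dotProduct, Fintype.sum_sum_type, ← Finset.sum_add_distrib]
  apply Finset.sum_congr rfl
  intro i _
  simp [jv]
  ring

theorem jv_eq (v : ι ⊕ ι → ℂ) : jv v = -(JJ ι *ᵥ star v) := by
  funext i
  rcases i with i | i
  · simp [jv, JJ, Matrix.mulVec, dotProduct, Matrix.one_apply]
  · simp [jv, JJ, Matrix.mulVec, dotProduct, Matrix.one_apply]

theorem InSp.comm_J {A : Matrix (ι ⊕ ι) (ι ⊕ ι) ℂ} (hA : InSp A) :
    A * JJ ι = JJ ι * A.map conj := by
  have h1 : A.map conj * Aᵀ = 1 := by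
    have h2 : A.map conj = Aᴴᵀ := by
      ext i j
      simp
    rw [h2, ← transpose_mul, hA.1, transpose_one]
  have h3 : JJ ι * A = A.map conj * JJ ι := by
    calc JJ ι * A = (A.map conj * Aᵀ) * JJ ι * A := by rw [h1, Matrix.one_mul]
      _ = A.map conj * (Aᵀ * JJ ι * A) := by noncomm_ring
      _ = A.map conj * JJ ι := by rw [hA.2]
  have h4 := congrArg (fun M : Matrix (ι ⊕ ι) (ι ⊕ ι) ℂ => M.map conj) h3
  simp only [Matrix.map_mul] at h4
  have h5 : (JJ ι).map conj = JJ ι := by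
    unfold JJ
    rw [fromBlocks_map]
    congr 1
    · ext i j; simp
    · ext i j
      by_cases h : i = j <;> simp [Matrix.one_apply, h]
    · ext i j
      by_cases h : i = j <;> simp [Matrix.one_apply, h]
    · ext i j; simp
  have h6 : (A.map conj).map conj = A := by
    ext i j
    simp
  rw [h5, h6] at h4
  exact h4.symm

theorem InSp.jv {A : Matrix (ι ⊕ ι) (ι ⊕ ι) ℂ} (hA : InSp A) (v : ι ⊕ ι → ℂ) :
    A *ᵥ jv v = Spn.jv (A *ᵥ v) := by
  rw [jv_eq, jv_eq, Matrix.mulVec_neg, Matrix.mulVec_mulVec, hA.comm_J, ← Matrix.mulVec_mulVec]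
  congr 2
  funext i
  simp [Matrix.mulVec, dotProduct]

theorem InSp.dot {A : Matrix (ι ⊕ ι) (ι ⊕ ι) ℂ} (hA : InSp A) (u w : ι ⊕ ι → ℂ) :
    star (A *ᵥ u) ⬝ᵥ (A *ᵥ w) = star u ⬝ᵥ w := by
  rw [Matrix.star_mulVec, ← Matrix.dotProduct_mulVec, Matrix.mulVec_mulVec, hA.star_mul,
    Matrix.one_mulVec]

/-- Partial symplectic orthonormal families of eigenvectors. -/
def Fam {n : ℕ} (A : Matrix (Fin n ⊕ Fin n) (Fin n ⊕ Fin n) ℂ) (m : ℕ)
    (v : Fin m → Fin n ⊕ Fin n → ℂ) : Prop :=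
  (∀ i j, star (v i) ⬝ᵥ v j = if i = j then 1 else 0) ∧ (∀ i j, star (jv (v i)) ⬝ᵥ v j = 0) ∧
    (∀ i, ∃ μ : ℂ, A *ᵥ v i = μ • v i)

theorem eig_unimod {A : Matrix (ι ⊕ ι) (ι ⊕ ι) ℂ} (hA : InSp A) {v : ι ⊕ ι → ℂ}
    (hv : star v ⬝ᵥ v = 1) {μ : ℂ} (h : A *ᵥ v = μ • v) : μ * conj μ = 1 := by
  have h1 := hA.dot v v
  rw [h, star_smul, smul_dotProduct, dotProduct_smul, hv] at h1
  simpa [mul_comm] using h1

theorem exists_eigenvector {A : Matrix (ι ⊕ ι) (ι ⊕ ι) ℂ} (W : Submodule ℂ (ι ⊕ ι → ℂ))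
    (hW : W ≠ ⊥) (hAW : ∀ w ∈ W, A *ᵥ w ∈ W) :
    ∃ y ∈ W, star y ⬝ᵥ y = 1 ∧ ∃ μ : ℂ, A *ᵥ y = μ • y := by
  have : Nontrivial W := Submodule.nontrivial_iff_ne_bot.mpr hW
  have hr : ∀ w ∈ W, (Matrix.mulVecLin A) w ∈ W := hAW
  obtain ⟨μ, hμ⟩ := Module.End.exists_eigenvalue ((Matrix.mulVecLin A).restrict hr)
  obtain ⟨x, hx⟩ := hμ.exists_hasEigenvector
  have hx0 : (x : ι ⊕ ι → ℂ) ≠ 0 := by
    intro h
    apply hx.2
    exact Subtype.ext h
  have hAx : A *ᵥ (x : ι ⊕ ι → ℂ) = μ • (x : ι ⊕ ι → ℂ) := by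
    have := congrArg Subtype.val hx.apply_eq_smul
    simpa using this
  -- normalise
  have hpos : ∃ N : ℝ, 0 < N ∧ star (x : ι ⊕ ι → ℂ) ⬝ᵥ (x : ι ⊕ ι → ℂ) = ((N ^ 2 : ℝ) : ℂ) := by
    refine ⟨Real.sqrt (∑ i, ‖(x : ι ⊕ ι → ℂ) i‖ ^ 2), ?_, ?_⟩
    · apply Real.sqrt_pos.mpr
      obtain ⟨i, hi⟩ := Function.ne_iff.mp hx0
      apply Finset.sum_pos' (fun i _ => by positivity)
      refine ⟨i, Finset.mem_univ _, ?_⟩
      have : 0 < ‖(x : ι ⊕ ι → ℂ) i‖ := norm_pos_iff.mpr hi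
      positivity
    · rw [Real.sq_sqrt (Finset.sum_nonneg fun i _ => by positivity), dotProduct]
      push_cast
      apply Finset.sum_congr rfl
      intro i _
      rw [Pi.star_apply, mul_comm]
      have := Complex.mul_conj ((x : ι ⊕ ι → ℂ) i)
      rw [Complex.normSq_eq_norm_sq] at this
      rw [← Complex.ofReal_pow]
      exact this
  obtain ⟨N, hN, hxx⟩ := hpos
  refine ⟨(N : ℂ)⁻¹ • (x : ι ⊕ ι → ℂ), W.smul_mem _ x.2, ?_, μ, ?_⟩
  · rw [star_smul, smul_dotProduct, dotProduct_smul, hxx]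
    have hNc : (N : ℂ) ≠ 0 := by exact_mod_cast hN.ne'
    simp only [smul_eq_mul, Complex.star_def, map_inv₀, Complex.conj_ofReal, Complex.ofReal_pow]
    field_simp
  · rw [Matrix.mulVec_smul, hAx, smul_comm]

theorem Fam.extend {n : ℕ} {A : Matrix (Fin n ⊕ Fin n) (Fin n ⊕ Fin n) ℂ} (hA : InSp A) {m : ℕ}
    (hm : m < n) {v : Fin m → Fin n ⊕ Fin n → ℂ} (hv : Fam A m v) :
    ∃ v' : Fin (m + 1) → Fin n ⊕ Fin n → ℂ, Fam A (m + 1) v' := by
  obtain ⟨h1, h2, h3⟩ := hv
  -- the orthogonal complement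
  let L : (Fin n ⊕ Fin n → ℂ) →ₗ[ℂ] (Fin m ⊕ Fin m → ℂ) :=
    Matrix.mulVecLin (Matrix.of (Sum.elim (fun i => star (v i)) (fun i => star (jv (v i)))))
  have hLi : ∀ w i, L w (Sum.inl i) = star (v i) ⬝ᵥ w := fun w i => rfl
  have hLj : ∀ w i, L w (Sum.inr i) = star (jv (v i)) ⬝ᵥ w := fun w i => rfl
  have hker : LinearMap.ker L ≠ ⊥ := by
    apply LinearMap.ker_ne_bot_of_finrank_lt
    rw [Module.finrank_fintype_fun_eq_card, Module.finrank_fintype_fun_eq_card]
    simp
    omega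
  have hmem : ∀ w, w ∈ LinearMap.ker L ↔
      (∀ i, star (v i) ⬝ᵥ w = 0) ∧ (∀ i, star (jv (v i)) ⬝ᵥ w = 0) := by
    intro w
    rw [LinearMap.mem_ker]
    constructor
    · intro h
      exact ⟨fun i => by rw [← hLi, h]; rfl, fun i => by rw [← hLj, h]; rfl⟩
    · rintro ⟨e1, e2⟩
      funext i
      rcases i with i | i
      · rw [hLi, e1]; rfl
      · rw [hLj, e2]; rfl
  have hinv : ∀ w ∈ LinearMap.ker L, A *ᵥ w ∈ LinearMap.ker L := by
    intro w hw
    rw [hmem] at hw ⊢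
    constructor
    · intro i
      obtain ⟨μ, hμ⟩ := h3 i
      have hu := eig_unimod hA (by simpa using h1 i i) hμ
      have h4 := hA.dot (v i) w
      rw [hμ, hw.1 i, star_smul, smul_dotProduct, smul_eq_mul] at h4
      rcases mul_eq_zero.mp h4 with h5 | h5
      · exfalso
        rw [star_eq_zero] at h5
        rw [h5] at hu
        simp at hu
      · exact h5
    · intro i
      obtain ⟨μ, hμ⟩ := h3 i
      have hu := eig_unimod hA (by simpa using h1 i i) hμ
      have h4 := hA.dot (jv (v i)) w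
      rw [hA.jv, hμ, jv_smul, hw.2 i, star_smul, smul_dotProduct, smul_eq_mul] at h4
      rcases mul_eq_zero.mp h4 with h5 | h5
      · exfalso
        rw [star_eq_zero] at h5
        rw [h5] at hu
        simp at hu
      · exact h5
  obtain ⟨y, hy, hyy, hAy⟩ := exists_eigenvector (LinearMap.ker L) hker hinv
  obtain ⟨hy1, hy2⟩ := (hmem y).mp hy
  refine ⟨Fin.snoc v y, ?_, ?_, ?_⟩
  · intro i j
    induction i using Fin.lastCases with
    | last =>
      induction j using Fin.lastCases with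
      | last => simp [hyy]
      | cast j =>
        rw [Fin.snoc_last, Fin.snoc_castSucc, dot_conj, hy1]
        simp [Fin.ext_iff]
        omega
    | cast i =>
      induction j using Fin.lastCases with
      | last =>
        rw [Fin.snoc_last, Fin.snoc_castSucc, hy1]
        simp [Fin.ext_iff]
        omega
      | cast j =>
        rw [Fin.snoc_castSucc, Fin.snoc_castSucc, h1]
        simp
  · intro i j
    induction i using Fin.lastCases with
    | last =>
      induction j using Fin.lastCases with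
      | last => rw [Fin.snoc_last, jv_dot_self]
      | cast j => rw [Fin.snoc_last, Fin.snoc_castSucc, jv_dot_anti, hy2, neg_zero]
    | cast i =>
      induction j using Fin.lastCases with
      | last => rw [Fin.snoc_last, Fin.snoc_castSucc, hy2]
      | cast j => rw [Fin.snoc_castSucc, Fin.snoc_castSucc, h2]
  · intro i
    induction i using Fin.lastCases with
    | last => rw [Fin.snoc_last]; exact hAy
    | cast i => rw [Fin.snoc_castSucc]; exact h3 i

theorem exists_fam {n : ℕ} {A : Matrix (Fin n ⊕ Fin n) (Fin n ⊕ Fin n) ℂ} (hA : InSp A) (m : ℕ)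
    (hm : m ≤ n) : ∃ v : Fin m → Fin n ⊕ Fin n → ℂ, Fam A m v := by
  induction m with
  | zero => exact ⟨fun i => i.elim0, fun i => i.elim0, fun i => i.elim0, fun i => i.elim0⟩
  | succ m ih =>
    obtain ⟨v, hv⟩ := ih (by omega)
    exact hv.extend hA (by omega)

theorem dot_J (u w : ι ⊕ ι → ℂ) : u ⬝ᵥ (JJ ι *ᵥ w) = star (jv u) ⬝ᵥ w := by
  have h1 : ∀ i, (JJ ι *ᵥ w) (Sum.inl i) = w (Sum.inr i) := by
    intro i
    simp [JJ, Matrix.mulVec, dotProduct, Matrix.one_apply]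
  have h2 : ∀ i, (JJ ι *ᵥ w) (Sum.inr i) = -w (Sum.inl i) := by
    intro i
    simp [JJ, Matrix.mulVec, dotProduct, Matrix.one_apply]
  rw [jv_dot, dotProduct, Fintype.sum_sum_type, ← Finset.sum_add_distrib]
  apply Finset.sum_congr rfl
  intro i _
  rw [h1, h2]
  ring

/-- Every element of the compact symplectic group is conjugate to a diagonal one. -/
theorem exists_diag {n : ℕ} {A : Matrix (Fin n ⊕ Fin n) (Fin n ⊕ Fin n) ℂ} (hA : InSp A) :
    ∃ (g : Matrix (Fin n ⊕ Fin n) (Fin n ⊕ Fin n) ℂ) (a : Fin n → ℂ), InSp g ∧ Uni a ∧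
      A = g * DD a * gᴴ := by
  obtain ⟨v, h1, h2, h3⟩ := exists_fam hA n le_rfl
  choose a ha using h3
  have hcols : ∀ i j, star (Sum.elim v (fun k => jv (v k)) i) ⬝ᵥ (Sum.elim v (fun k => jv (v k)) j)
      = if i = j then (1 : ℂ) else 0 := by
    intro i j
    rcases i with i | i <;> rcases j with j | j
    · simp [h1]
    · simp only [Sum.elim_inl, Sum.elim_inr]
      rw [dot_conj, h2]
      simp
    · simp only [Sum.elim_inl, Sum.elim_inr]
      rw [h2]
      simp
    · simp only [Sum.elim_inr]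
      rw [jv_dot_jv, h1]
      simp [eq_comm]
  set g : Matrix (Fin n ⊕ Fin n) (Fin n ⊕ Fin n) ℂ :=
    Matrix.of fun r c => Sum.elim v (fun k => jv (v k)) c r with hg
  have hgg : gᴴ * g = 1 := by
    ext i j
    rw [Matrix.mul_apply, Matrix.one_apply, ← hcols i j, dotProduct]
    apply Finset.sum_congr rfl
    intro k _
    simp [hg, Matrix.conjTranspose_apply]
  have hgg' : g * gᴴ = 1 := mul_eq_one_comm.mp hgg
  have hcolJ : ∀ i j, (Sum.elim v (fun k => jv (v k)) i) ⬝ᵥ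
      (JJ (Fin n) *ᵥ (Sum.elim v (fun k => jv (v k)) j)) = JJ (Fin n) i j := by
    intro i j
    rw [dot_J]
    rcases i with i | i <;> rcases j with j | j
    · simp only [Sum.elim_inl]
      rw [h2]
      simp [JJ]
    · simp only [Sum.elim_inl, Sum.elim_inr]
      rw [jv_dot_jv, h1]
      simp [JJ, Matrix.one_apply, eq_comm]
    · simp only [Sum.elim_inl, Sum.elim_inr]
      rw [jv_dot_anti, jv_dot_jv, h1]
      simp [JJ, Matrix.one_apply]
    · simp only [Sum.elim_inr]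
      rw [jv_dot_jv, dot_conj, h2]
      simp [JJ]
  refine ⟨g, a, ⟨hgg', ?_⟩, fun i => eig_unimod hA (by simpa using h1 i i) (ha i), ?_⟩
  · ext i j
    rw [← hcolJ i j, Matrix.mul_assoc, Matrix.mul_apply, dotProduct]
    apply Finset.sum_congr rfl
    intro k _
    simp only [hg, Matrix.transpose_apply, Matrix.of_apply]
    rfl
  · have hAg : A * g = g * DD a := by
      ext r c
      have e1 : (A * g) r c = (A *ᵥ (Sum.elim v (fun k => jv (v k)) c)) r := by
        rw [Matrix.mul_apply, Matrix.mulVec, dotProduct]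
        rfl
      rw [e1]
      have e2 : ∀ k l, DD a k l = if k = l then Sum.elim a (fun i => conj (a i)) k else 0 := by
        intro k l
        rcases k with k | k <;> rcases l with l | l <;>
          simp [DD, emb, Matrix.diagonal_apply]
      rw [Matrix.mul_apply]
      simp only [e2, mul_ite, mul_zero]
      rw [Finset.sum_ite_eq', if_pos (Finset.mem_univ _)]
      rcases c with c | c
      · simp only [Sum.elim_inl, hg, Matrix.of_apply]
        rw [ha, Pi.smul_apply, smul_eq_mul, mul_comm]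
      · simp only [Sum.elim_inr, hg, Matrix.of_apply]
        rw [hA.jv, ha, jv_smul, Pi.smul_apply, smul_eq_mul, mul_comm]
    rw [← hAg, Matrix.mul_assoc, hgg', Matrix.mul_one]

end Pool.Agent.Helper12.Spn
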